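import Pool.Agent.Lib.MP_7bc51d_an_tri.Sets
import Pool.Agent.Lib.MP_7bc51d_an_spec.Comb

set_option autoImplicit false

/-!
Means of trigonometric functions of the difference of two directions.
-/

namespace Pool.Agent.Lib.BilT

open Complex MeasureTheory Set Filter AddCircle
open scoped ComplexConjugate Topology ENNReal NNReal Real
open Pool.Agent.Lib.Bil Pool.Agent.Lib.BilM Pool.Agent.Lib.BilS Pool.Agent.Lib.BilX

variable {n : ℕ} {v : Fin n → ℂ}

/-- The polarisation hypothesis of `BilE.spec_bil`. -/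
theorem E2_cmb {F G : ℂ → ℝ → ℝ} (hF : LF F) (hG : LF G) (hFh : HomF F) (hGh : HomF G) (k : ℤ) :
    E2 v F G k = EE v (BilE.cmb F G 1) k - EE v (BilE.cmb F G (-1)) k := by
  apply EE_comb hF hG hFh hGh
  · intro w Q; unfold BilE.cmb; ring
  · intro w Q; unfold BilE.cmb; ring

/-- The polarised identity for the joint energies. -/
theorem E2_bil (hn : 3 ≤ n) (hv : ConvexIndependent ℝ v) {F G : ℂ → ℝ → ℝ} (hF : LF F)
    (hG : LF G) (hFh : HomF F) (hGh : HomF G)
    (hFs : ∀ i, SymAt F (v i) (v (nxt hn hv i) - v i))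
    (hGs : ∀ i, SymAt G (v i) (v (nxt hn hv i) - v i))
    {σ : Equiv.Perm (Fin n)} (hσ : ∀ a, nxt hn hv (σ a) = σ (finRotate n a)) (k : ℤ) :
    E2 v F G (k - 1) - E2 v F G (k + 1) =
      BilE.BQ n (fun a => BilE.sF hn hv F (σ a) k) (fun a => BilE.sF hn hv G (σ a) k)
      (fun a b => ((BilE.ud hn hv (σ b) * conj (BilE.ud hn hv (σ a))) ^ k).im) :=
  BilE.spec_bil hn hv hF hG hFh hGh hFs hGs hσ (e := fun H k => EE v H k)
    (fun _ hH hHh k => coeff_Cr hH hHh k) (fun k => E2_cmb hF hG hFh hGh k) k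

theorem dbl_diff {f g : ℝ → ℝ} (hf : Measurable f) (hg : Measurable g) (hfb : ∀ θ, |f θ| ≤ 1)
    (hgb : ∀ θ, |g θ| ≤ 1) (k l : ℝ) :
    ∫ θ in Ioo (-π) π, ∫ θ' in Ioo (-π) π,
      f θ * g θ' * (Real.cos (k * (θ - θ')) - Real.cos (l * (θ - θ'))) =
    (∫ θ in Ioo (-π) π, ∫ θ' in Ioo (-π) π, f θ * g θ' * Real.cos (k * (θ - θ'))) -
    ∫ θ in Ioo (-π) π, ∫ θ' in Ioo (-π) π, f θ * g θ' * Real.cos (l * (θ - θ')) := by
  have hi : ∀ (k θ : ℝ), IntegrableOn (fun θ' => f θ * g θ' * Real.cos (k * (θ - θ')))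
      (Ioo (-π) π) := by
    intro k θ
    refine intOn_I ((hg.const_mul (f θ)).mul (Real.measurable_cos.comp
      ((measurable_const.sub measurable_id).const_mul k))) (C := 1) (fun θ' => ?_)
    rw [abs_mul, abs_mul]
    have h1 := hfb θ
    have h2 := hgb θ'
    have h3 := Real.abs_cos_le_one (k * (θ - θ'))
    calc |f θ| * |g θ'| * |Real.cos (k * (θ - θ'))| ≤ 1 * 1 * 1 := by gcongr
      _ = 1 := by norm_num
  have ho : ∀ k : ℝ, IntegrableOn (fun θ => ∫ θ' in Ioo (-π) π,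
      f θ * g θ' * Real.cos (k * (θ - θ'))) (Ioo (-π) π) := by
    intro k
    have inner : ∀ θ, ∫ θ' in Ioo (-π) π, f θ * g θ' * Real.cos (k * (θ - θ')) =
        (f θ * Real.cos (k * θ)) * (∫ θ in Ioo (-π) π, g θ * Real.cos (k * θ)) +
        (f θ * Real.sin (k * θ)) * (∫ θ in Ioo (-π) π, g θ * Real.sin (k * θ)) := by
      intro θ
      have e1 : ∀ θ', f θ * g θ' * Real.cos (k * (θ - θ')) =
          (f θ * Real.cos (k * θ)) * (g θ' * Real.cos (k * θ')) +
          (f θ * Real.sin (k * θ)) * (g θ' * Real.sin (k * θ')) := by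
        intro θ'
        rw [mul_sub, Real.cos_sub]; ring
      simp_rw [e1]
      rw [integral_add ((cosOn hg hgb k).const_mul _) ((sinOn hg hgb k).const_mul _),
        integral_const_mul, integral_const_mul]
    simp_rw [inner]
    exact ((cosOn hf hfb k).mul_const _).add ((sinOn hf hfb k).mul_const _)
  rw [← integral_sub (ho k) (ho l)]
  congr 1
  funext θ
  rw [← integral_sub (hi k θ) (hi l θ)]
  congr 1
  funext θ'
  ring

/-- The mean of a difference of two cosines. -/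
theorem am_cos_sub {A B : Set (ℂ × ℂ)} (hA : IS v A) (hB : IS v B) (k l : ℤ) {g : ℝ → ℝ}
    (hg : ∀ s, g s = Real.cos (k * s) - Real.cos (l * s)) :
    am v g A B = (E2 v (FA v A) (FA v B) k - E2 v (FA v A) (FA v B) l) / ar v := by
  have hg' : g = fun s => Real.cos (k * s) - Real.cos (l * s) := funext hg
  rw [hg']
  have h0 : (E2 v (FA v A) (FA v B) k - E2 v (FA v A) (FA v B) l) / ar v =
      am v (fun s => Real.cos (k * s)) A B - am v (fun s => Real.cos (l * s)) A B := by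
    rw [am_cos hA hB k, am_cos hA hB l, sub_div]
  rw [h0]
  unfold am
  rw [← sub_div]
  congr 1
  have hI : ∀ k : ℤ, IntegrableOn (fun x => ∫ θ in Ioo (-π) π, ∫ θ' in Ioo (-π) π,
      dI A x θ * dI B x θ' * Real.cos (k * (θ - θ'))) (PP v) := by
    intro k
    have h2 := (int_E2 (v := v) (LF_FA (v := v) hA.meas) (LF_FA (v := v) hB.meas) k).const_mul
      ((2 * π) ^ 2)
    refine h2.congr ?_
    rw [EventuallyEq, ae_restrict_iff' isOpen_PP.measurableSet]
    filter_upwards [ae_inner (v := v) hA.meas hB.meas hA.cone hB.cone hA.ch hB.ch k] with x hx hxP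
    exact (hx hxP).symm
  rw [← integral_sub (hI k) (hI l)]
  congr 1
  funext x
  exact dbl_diff (dI_meas hA.1 x) (dI_meas hB.1 x) (dI_abs A x) (dI_abs B x) k l

/-- The mean of `2 sin s sin (k s)`. -/
theorem am_sin {A B : Set (ℂ × ℂ)} (hA : IS v A) (hB : IS v B) (k : ℕ) :
    am v (fun s => 2 * Real.sin s * Real.sin (k * s)) A B =
      (E2 v (FA v A) (FA v B) ((k : ℤ) - 1) - E2 v (FA v A) (FA v B) ((k : ℤ) + 1)) / ar v := by
  apply am_cos_sub hA hB
  intro s
  push_cast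
  rw [sub_mul, add_mul, Real.cos_sub, Real.cos_add]
  ring_nf

/-- Crossing numbers are means of `2 sin ^ 2`. -/
theorem am_JJ {A B : Set (ℂ × ℂ)} (hn : 3 ≤ n) (hv : ConvexIndependent ℝ v) :
    am v (fun s => 2 * Real.sin s ^ 2) A B = JJ v A B := by
  unfold am JJ cro
  have h1 : ∀ x : ℂ, ∫ θ in Ioo (-π) π, ∫ θ' in Ioo (-π) π,
      dI A x θ * dI B x θ' * (2 * Real.sin (θ - θ') ^ 2) =
      2 * ∫ θ in Ioo (-π) π, ∫ θ' in Ioo (-π) π, dI A x θ * dI B x θ' * Real.sin (θ - θ') ^ 2 := by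
    intro x
    rw [← integral_const_mul]
    congr 1
    funext θ
    rw [← integral_const_mul]
    congr 1
    funext θ'
    ring
  simp_rw [h1]
  rw [integral_const_mul]
  have h2 := (ar_pos hn hv).ne'
  have h3 := Real.pi_ne_zero
  field_simp

/-- The energies of invariant sets as sums of means. -/
theorem am_hasSum {A B : Set (ℂ × ℂ)} (hA : IS v A) (hB : IS v B) (m : ℕ) :
    HasSum (fun i : ℕ => am v (fun s => 2 * Real.sin s * Real.sin ((m + 1 + 2 * i : ℕ) * s)) A B)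
      (am v (fun s => Real.cos (m * s)) A B) := by
  have h := (E2_hasSum (v := v) (LF_FA (v := v) hA.meas) (LF_FA (v := v) hB.meas)
    (m : ℤ)).div_const (ar v)
  have e1 : am v (fun s => Real.cos (m * s)) A B = E2 v (FA v A) (FA v B) (m : ℤ) / ar v := by
    rw [← am_cos hA hB (m : ℤ)]
    simp
  rw [e1]
  refine h.congr_fun ?_
  intro i
  rw [am_sin hA hB]
  congr 2
  · congr 1
    push_cast; ring
  · congr 1
    push_cast; ring

end Pool.Agent.Lib.BilT
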