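import Pool.Agent.Lib.MP_7bc51d_an_smooth.Case3

set_option autoImplicit false

/-!
Angular modes of line functions, and the Fourier coefficients of the rotation correlation.
-/

namespace Pool.Agent.Lib.BilT

open Complex MeasureTheory Set Filter AddCircle
open scoped ComplexConjugate Topology ENNReal NNReal
open Pool.Agent.Lib.Bil Pool.Agent.Lib.BilM Pool.Agent.Lib.BilS

variable {n : ℕ} {v : Fin n → ℂ}

/-- The homogeneous function of the directions at `x`. -/
noncomputable def Dx (F : ℂ → ℝ → ℝ) (x w : ℂ) : ℝ := ‖w‖ * F w (cr w x)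

theorem meas_Dx {F : ℂ → ℝ → ℝ} (hF : LF F) : Measurable (fun p : ℂ × ℂ => Dx F p.1 p.2) := by
  have hc1 : Measurable (fun p : ℂ × ℂ => cr p.2 p.1) := by
    apply Continuous.measurable; unfold cr; fun_prop
  exact measurable_snd.norm.mul (hF.meas.comp (measurable_snd.prodMk hc1))

theorem abs_Dx {F : ℂ → ℝ → ℝ} (hF : LF F) (x w : ℂ) : |Dx F x w| ≤ ‖w‖ := by
  unfold Dx
  rw [abs_mul, abs_norm]
  have := hF.bd w (cr w x)
  nlinarith [norm_nonneg w]

theorem Dx_hom1 {F : ℂ → ℝ → ℝ} (hF : LF F) (hhom : HomF F) (x : ℂ) : Hom1 (Dx F x) := by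
  refine ⟨(meas_Dx hF).comp (measurable_const.prodMk measurable_id), fun r hr w => ?_,
    ⟨1, zero_le_one, fun w => ?_⟩⟩
  · unfold Dx
    rw [cr_smul_left, hhom r hr, norm_mul, norm_real, Real.norm_eq_abs, abs_of_pos hr]
    ring
  · rw [one_mul]
    exact abs_Dx hF x w

theorem abs_Dx_rho {F : ℂ → ℝ → ℝ} (hF : LF F) (x : ℂ) (t : TT) : |Dx F x (rho t)| ≤ 1 := by
  have := abs_Dx hF x (rho t)
  rwa [norm_rho] at this

theorem meas_cNDx {F : ℂ → ℝ → ℝ} (hF : LF F) (k : ℤ) :
    Measurable (fun x : ℂ => cN (Dx F x) k) := by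
  have h1 : Measurable (fun p : ℂ × TT => (fourier (-k) p.2 : ℂ) • ((Dx F p.1 (rho p.2) : ℝ) : ℂ)) :=
    ((map_continuous (fourier (-k))).measurable.comp measurable_snd).smul
      (Complex.measurable_ofReal.comp
        ((meas_Dx hF).comp (measurable_fst.prodMk (measurable_rho.comp measurable_snd))))
  have h2 : StronglyMeasurable (Function.uncurry (fun (x : ℂ) (t : TT) =>
      (fourier (-k) t : ℂ) • ((Dx F x (rho t) : ℝ) : ℂ))) := h1.stronglyMeasurable
  exact (h2.integral_prod_right (ν := (haarAddCircle : Measure TT))).measurable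

theorem bessel_Dx {F : ℂ → ℝ → ℝ} (hF : LF F) (x : ℂ) (S : Finset ℤ) :
    ∑ k ∈ S, ‖cN (Dx F x) k‖ ^ 2 ≤ 1 := by
  have h := bessel (m := fun t => Dx F x (rho t)) (B := 1)
    (((meas_Dx hF).comp (measurable_const.prodMk measurable_id)).comp measurable_rho)
    (abs_Dx_rho hF x) S
  rw [one_pow] at h
  exact h

theorem norm_cNDx {F : ℂ → ℝ → ℝ} (hF : LF F) (x : ℂ) (k : ℤ) : ‖cN (Dx F x) k‖ ^ 2 ≤ 1 := by
  simpa using bessel_Dx hF x {k}

theorem norm_cNDx' {F : ℂ → ℝ → ℝ} (hF : LF F) (x : ℂ) (k : ℤ) : ‖cN (Dx F x) k‖ ≤ 1 := by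
  have := norm_cNDx hF x k
  nlinarith [norm_nonneg (cN (Dx F x) k)]

instance finPP : IsFiniteMeasure (volume.restrict (PP v) : Measure ℂ) :=
  ⟨by rw [Measure.restrict_apply_univ]; exact isBounded_PP.measure_lt_top⟩

instance finBV : IsFiniteMeasure (volume.restrict BV : Measure ℂ) :=
  ⟨by rw [Measure.restrict_apply_univ]; exact measure_ball_lt_top⟩

/-- The energy of the `k`-th angular mode. -/
noncomputable def EE (v : Fin n → ℂ) (F : ℂ → ℝ → ℝ) (k : ℤ) : ℝ :=
  ∫ x in PP v, ‖cN (Dx F x) k‖ ^ 2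

theorem EE_nonneg (F : ℂ → ℝ → ℝ) (k : ℤ) : 0 ≤ EE v F k :=
  integral_nonneg (fun _ => by positivity)

theorem int_sq {F : ℂ → ℝ → ℝ} (hF : LF F) (k : ℤ) :
    IntegrableOn (fun x => ‖cN (Dx F x) k‖ ^ 2) (PP v) := by
  refine Integrable.mono' (integrable_const (1 : ℝ))
    (((meas_cNDx hF k).norm.pow_const 2).aestronglyMeasurable) ?_
  refine Eventually.of_forall (fun x => ?_)
  rw [Real.norm_eq_abs, abs_of_nonneg (by positivity)]
  exact norm_cNDx hF x k

theorem EE_neg (F : ℂ → ℝ → ℝ) (k : ℤ) : EE v F (-k) = EE v F k := by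
  unfold EE
  simp_rw [cN_neg, RCLike.norm_conj]

theorem EE_sum_le {F : ℂ → ℝ → ℝ} (hF : LF F) (S : Finset ℤ) :
    ∑ k ∈ S, EE v F k ≤ (volume (PP v)).toReal := by
  unfold EE
  rw [← integral_finsetSum _ (fun k _ => int_sq hF k)]
  have h1 : ∫ x in PP v, ∑ k ∈ S, ‖cN (Dx F x) k‖ ^ 2 ≤ ∫ x in PP v, (1 : ℝ) := by
    refine integral_mono (integrable_finsetSum _ (fun k _ => int_sq hF k))
      (integrable_const _) (fun x => bessel_Dx hF x S)
  refine h1.trans ?_
  simp [Measure.real]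

theorem EE_summable {F : ℂ → ℝ → ℝ} (hF : LF F) : Summable (fun k : ℤ => EE v F k) :=
  summable_of_sum_le (EE_nonneg F) (EE_sum_le hF)

/-- The correlation function, fibre by fibre. -/
theorem Cr_fibre {F : ℂ → ℝ → ℝ} (hF : LF F) (t : TT) :
    Cr v F t = ∫ x in PP v, ∫ w in BV, Dx F x w * Dx F x (rho t * w) := by
  unfold Cr
  rw [show rho t = ((toCircle t : Circle) : ℂ) from rfl, Gw_corr hF (toCircle t)]
  have hρ : ‖((toCircle t : Circle) : ℂ)‖ = 1 := Circle.norm_coe _
  set ρ : ℂ := ((toCircle t : Circle) : ℂ) with hρdef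
  have hm : Measurable (fun p : ℂ × ℂ => ‖p.1‖ ^ 2 *
      (F p.1 (cr p.1 p.2) * F (ρ * p.1) (cr (ρ * p.1) p.2))) :=
    (measurable_fst.norm.pow_const 2).mul ((meas_F_comp1 hF).mul (meas_F_comp hF _))
  have hint : Integrable (Function.uncurry (fun (w x : ℂ) => ‖w‖ ^ 2 *
      (F w (cr w x) * F (ρ * w) (cr (ρ * w) x))))
      ((volume.restrict BV).prod (volume.restrict (PP v))) := by
    refine Integrable.mono' (integrable_const (1 : ℝ)) hm.aestronglyMeasurable ?_
    rw [Measure.prod_restrict, ae_restrict_iff' (measurableSet_ball.prod isOpen_PP.measurableSet)]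
    refine Eventually.of_forall (fun p hp => ?_)
    simp only [Function.uncurry]
    rw [norm_mul, norm_mul, norm_pow, norm_norm, Real.norm_eq_abs, Real.norm_eq_abs]
    have h2 := (norm_lt_of_BV hp.1).le
    have h3 := hF.bd p.1 (cr p.1 p.2)
    have h4 := hF.bd (ρ * p.1) (cr (ρ * p.1) p.2)
    calc _ ≤ (1 : ℝ) ^ 2 * (1 * 1) := by gcongr
      _ = 1 := by norm_num
  rw [integral_integral_swap hint]
  apply integral_congr_ae
  refine Eventually.of_forall (fun x => ?_)
  apply integral_congr_ae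
  refine Eventually.of_forall (fun w => ?_)
  simp only [Dx]
  rw [norm_mul, hρ]
  ring

theorem meas_fib {F : ℂ → ℝ → ℝ} (hF : LF F) :
    Measurable (fun p : ℂ × TT => ∫ w in BV, Dx F p.1 w * Dx F p.1 (rho p.2 * w)) := by
  have h1 : Measurable (fun q : (ℂ × TT) × ℂ => Dx F q.1.1 q.2 * Dx F q.1.1 (rho q.1.2 * q.2)) :=
    ((meas_Dx hF).comp (measurable_fst.fst.prodMk measurable_snd)).mul
      ((meas_Dx hF).comp (measurable_fst.fst.prodMk
        ((measurable_rho.comp measurable_fst.snd).mul measurable_snd)))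
  have h2 : StronglyMeasurable (Function.uncurry (fun (p : ℂ × TT) (w : ℂ) =>
      Dx F p.1 w * Dx F p.1 (rho p.2 * w))) := h1.stronglyMeasurable
  exact (h2.integral_prod_right (ν := volume.restrict BV)).measurable

theorem abs_fib {F : ℂ → ℝ → ℝ} (hF : LF F) (x : ℂ) (t : TT) :
    |∫ w in BV, Dx F x w * Dx F x (rho t * w)| ≤ (volume BV).toReal := by
  have h : ‖∫ w in BV, Dx F x w * Dx F x (rho t * w)‖ ≤ 1 * (volume BV).toReal := by
    refine norm_setIntegral_le_of_norm_le_const measure_ball_lt_top (fun w hw => ?_)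
    rw [norm_mul, Real.norm_eq_abs, Real.norm_eq_abs]
    have h1 := norm_lt_of_BV hw
    have h2 := abs_Dx hF x w
    have h3 := abs_Dx hF x (rho t * w)
    rw [norm_mul, norm_rho, one_mul] at h3
    calc |Dx F x w| * |Dx F x (rho t * w)| ≤ 1 * 1 := by
          apply mul_le_mul (h2.trans h1.le) (h3.trans h1.le) (abs_nonneg _) zero_le_one
      _ = 1 := one_mul _
  rwa [Real.norm_eq_abs, one_mul] at h

/-- Fourier coefficients of the rotation correlation. -/
theorem coeff_Cr {F : ℂ → ℝ → ℝ} (hF : LF F) (hhom : HomF F) (k : ℤ) :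
    fourierCoeff (fun t : TT => ((Cr v F t : ℝ) : ℂ)) k = kap * ((EE v F k : ℝ) : ℂ) := by
  set g : ℂ → TT → ℝ := fun x t => ∫ w in BV, Dx F x w * Dx F x (rho t * w) with hg
  have hgm : Measurable (fun p : ℂ × TT => g p.1 p.2) := meas_fib hF
  have hm : Measurable (fun p : TT × ℂ => (fourier (-k) p.1 : ℂ) * ((g p.2 p.1 : ℝ) : ℂ)) :=
    ((map_continuous (fourier (-k))).measurable.comp measurable_fst).mul
      (Complex.measurable_ofReal.comp (hgm.comp measurable_swap))
  have hint : Integrable (Function.uncurry (fun (t : TT) (x : ℂ) =>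
      (fourier (-k) t : ℂ) * ((g x t : ℝ) : ℂ)))
      ((haarAddCircle : Measure TT).prod (volume.restrict (PP v))) := by
    refine Integrable.mono' (integrable_const (volume BV).toReal) hm.aestronglyMeasurable ?_
    refine Eventually.of_forall (fun p => ?_)
    simp only [Function.uncurry]
    rw [norm_mul, norm_fourier_pt, one_mul, norm_real, Real.norm_eq_abs]
    exact abs_fib hF p.2 p.1
  have h1 : fourierCoeff (fun t : TT => ((Cr v F t : ℝ) : ℂ)) k =
      ∫ t : TT, (∫ x in PP v, (fourier (-k) t : ℂ) * ((g x t : ℝ) : ℂ)) ∂haarAddCircle := by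
    unfold fourierCoeff
    apply integral_congr_ae
    refine Eventually.of_forall (fun t => ?_)
    simp only
    rw [Cr_fibre hF t, smul_eq_mul, integral_const_mul, ← integral_complex_ofReal]
  rw [h1, integral_integral_swap hint]
  have h2 : ∀ x : ℂ, ∫ t : TT, (fourier (-k) t : ℂ) * ((g x t : ℝ) : ℂ) ∂haarAddCircle =
      kap * ((‖cN (Dx F x) k‖ ^ 2 : ℝ) : ℂ) := by
    intro x
    have h3 := corr_coeff (Dx_hom1 hF hhom x) (Dx_hom1 hF hhom x) k
    have h4 : fourierCoeff (fun t : TT => ((∫ w in BV, Dx F x w * Dx F x (rho t * w) : ℝ) : ℂ)) k =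
      ∫ t : TT, (fourier (-k) t : ℂ) * ((g x t : ℝ) : ℂ) ∂haarAddCircle := rfl
    rw [← h4, h3, cN_neg, ← Complex.normSq_eq_conj_mul_self, Complex.normSq_eq_norm_sq]
  simp_rw [h2]
  rw [integral_const_mul]
  congr 1
  unfold EE
  rw [← integral_complex_ofReal]

/-- The modes of a combination. -/
theorem Dx_comb (F G : ℂ → ℝ → ℝ) (a b : ℝ) (x w : ℂ) :
    Dx (fun w Q => a * F w Q + b * G w Q) x w = a * Dx F x w + b * Dx G x w := by
  unfold Dx
  ring

theorem cN_Dx_comb {F G : ℂ → ℝ → ℝ} (hF : LF F) (hG : LF G) (hFh : HomF F) (hGh : HomF G)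
    (a b : ℝ) (x : ℂ) (k : ℤ) :
    cN (Dx (fun w Q => a * F w Q + b * G w Q) x) k = a * cN (Dx F x) k + b * cN (Dx G x) k := by
  have h : Dx (fun w Q => a * F w Q + b * G w Q) x = fun w => a * Dx F x w + b * Dx G x w := by
    funext w; exact Dx_comb F G a b x w
  rw [h, cN_add ((Dx_hom1 hF hFh x).smul a) ((Dx_hom1 hG hGh x).smul b), cN_smul, cN_smul]

/-- The joint energy of the `k`-th angular modes. -/
noncomputable def E2 (v : Fin n → ℂ) (F G : ℂ → ℝ → ℝ) (k : ℤ) : ℝ :=
  ∫ x in PP v, (cN (Dx F x) k * conj (cN (Dx G x) k)).re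

theorem EE_comb {F G : ℂ → ℝ → ℝ} (hF : LF F) (hG : LF G) (hFh : HomF F) (hGh : HomF G)
    {H K : ℂ → ℝ → ℝ} (hH : ∀ w Q, H w Q = (1 / 2) * F w Q + (1 / 2) * G w Q)
    (hK : ∀ w Q, K w Q = (1 / 2) * F w Q + (-1 / 2) * G w Q) (k : ℤ) :
    E2 v F G k = EE v H k - EE v K k := by
  have hH' : H = fun w Q => (1 / 2) * F w Q + (1 / 2) * G w Q := by
    funext w Q; exact hH w Q
  have hK' : K = fun w Q => (1 / 2) * F w Q + (-1 / 2) * G w Q := by
    funext w Q; exact hK w Q
  have lH : LF H := by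
    refine ⟨?_, fun w Q => ?_⟩
    · rw [hH']; exact (hF.meas.const_mul _).add (hG.meas.const_mul _)
    · rw [hH]
      have h1 := abs_le.1 (hF.bd w Q)
      have h2 := abs_le.1 (hG.bd w Q)
      rw [abs_le]
      constructor <;> linarith [h1.1, h1.2, h2.1, h2.2]
  have lK : LF K := by
    refine ⟨?_, fun w Q => ?_⟩
    · rw [hK']; exact (hF.meas.const_mul _).add (hG.meas.const_mul _)
    · rw [hK]
      have h1 := abs_le.1 (hF.bd w Q)
      have h2 := abs_le.1 (hG.bd w Q)
      rw [abs_le]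
      constructor <;> linarith [h1.1, h1.2, h2.1, h2.2]
  unfold E2 EE
  rw [← integral_sub (int_sq lH k) (int_sq lK k)]
  apply integral_congr_ae
  refine Eventually.of_forall (fun x => ?_)
  simp only
  rw [hH', hK', cN_Dx_comb hF hG hFh hGh, cN_Dx_comb hF hG hFh hGh]
  set a := cN (Dx F x) k
  set b := cN (Dx G x) k
  rw [← Complex.normSq_eq_norm_sq, ← Complex.normSq_eq_norm_sq, Complex.normSq_apply,
    Complex.normSq_apply]
  simp only [add_re, add_im, mul_re, mul_im, ofReal_re, ofReal_im, conj_re, conj_im]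
  ring

theorem abs_E2_le {F G : ℂ → ℝ → ℝ} (hF : LF F) (hG : LF G) (k : ℤ) :
    |E2 v F G k| ≤ (EE v F k + EE v G k) / 2 := by
  unfold E2 EE
  rw [← Real.norm_eq_abs]
  refine (norm_integral_le_integral_norm _).trans ?_
  rw [← integral_add (int_sq hF k) (int_sq hG k), ← integral_div]
  refine integral_mono_of_nonneg (Eventually.of_forall (fun x => norm_nonneg _))
    (((int_sq hF k).add (int_sq hG k)).div_const 2) (Eventually.of_forall (fun x => ?_))
  simp only
  rw [Real.norm_eq_abs]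
  refine (Complex.abs_re_le_norm _).trans ?_
  rw [norm_mul, RCLike.norm_conj]
  have := two_mul_le_add_sq ‖cN (Dx F x) k‖ ‖cN (Dx G x) k‖
  linarith

theorem E2_neg (F G : ℂ → ℝ → ℝ) (k : ℤ) : E2 v F G (-k) = E2 v F G k := by
  unfold E2
  simp_rw [cN_neg]
  congr 1
  funext x
  rw [← map_mul, conj_re]

theorem E2_summable {F G : ℂ → ℝ → ℝ} (hF : LF F) (hG : LF G) :
    Summable (fun k : ℤ => E2 v F G k) := by
  have h := ((EE_summable (v := v) hF).add (EE_summable (v := v) hG)).div_const 2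
  exact Summable.of_norm_bounded h (fun k => by
    rw [Real.norm_eq_abs]; exact abs_E2_le hF hG k)

/-- Telescoping: the energy is the sum of the differences. -/
theorem E2_hasSum {F G : ℂ → ℝ → ℝ} (hF : LF F) (hG : LF G) (m : ℤ) :
    HasSum (fun i : ℕ => E2 v F G (m + 2 * i) - E2 v F G (m + 2 * i + 2)) (E2 v F G m) := by
  have hs := E2_summable (v := v) hF hG
  have hinj : Function.Injective (fun i : ℕ => m + 2 * (i : ℤ)) := by
    intro i j h
    simp only at h
    omega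
  have s1 : Summable (fun i : ℕ => E2 v F G (m + 2 * i)) := hs.comp_injective hinj
  have s2 : Summable (fun i : ℕ => E2 v F G (m + 2 * ((i + 1 : ℕ) : ℤ))) :=
    (summable_nat_add_iff 1).2 s1
  have e2 : ∀ i : ℕ, E2 v F G (m + 2 * i + 2) = E2 v F G (m + 2 * ((i + 1 : ℕ) : ℤ)) := by
    intro i
    congr 1
    push_cast
    ring
  simp_rw [e2]
  have h3 := s1.hasSum.sub s2.hasSum
  have h4 := s1.tsum_eq_zero_add
  have h5 : ∑' i : ℕ, E2 v F G (m + 2 * i) - ∑' i : ℕ, E2 v F G (m + 2 * ((i + 1 : ℕ) : ℤ)) =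
      E2 v F G m := by
    rw [h4]
    simp
  rw [h5] at h3
  exact h3

end Pool.Agent.Lib.BilT
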