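import Pool.Agent.Lib.MP_7bc51d_an_tri.Modes
import Pool.Agent.Lib.MP_7bc51d_an_cross.Tri

set_option autoImplicit false

/-!
Angular modes of invariant sets as integrals over the directions.
-/

namespace Pool.Agent.Lib.BilT

open Complex MeasureTheory Set Filter AddCircle
open scoped ComplexConjugate Topology ENNReal NNReal Real
open Pool.Agent.Lib.Bil Pool.Agent.Lib.BilM Pool.Agent.Lib.BilS Pool.Agent.Lib.BilX

variable {n : ℕ} {v : Fin n → ℂ}

/-- The homogeneous function of the directions at `x` in `A`. -/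
noncomputable def DA (A : Set (ℂ × ℂ)) (x w : ℂ) : ℝ := ‖w‖ * A.indicator (1 : ℂ × ℂ → ℝ) (x, w)

theorem DA_hom1 {A : Set (ℂ × ℂ)} (hA : MeasurableSet A) (hc : Cone A) (x : ℂ) :
    Hom1 (DA A x) := by
  refine ⟨?_, fun r hr w => ?_, ⟨1, zero_le_one, fun w => ?_⟩⟩
  · exact measurable_norm.mul
      ((measurable_one.indicator hA).comp (measurable_const.prodMk measurable_id))
  · have h1 : A.indicator (1 : ℂ × ℂ → ℝ) (x, (r : ℂ) * w) = A.indicator 1 (x, w) := by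
      by_cases h : (x, w) ∈ A
      · rw [indicator_of_mem h, indicator_of_mem ((hc x w r hr).1 h)]; rfl
      · rw [indicator_of_notMem h, indicator_of_notMem (fun h2 => h ((hc x w r hr).2 h2))]
    unfold DA
    rw [h1, norm_mul, norm_real, Real.norm_eq_abs, abs_of_pos hr]
    ring
  · unfold DA
    have h1 : |A.indicator (1 : ℂ × ℂ → ℝ) (x, w)| ≤ 1 := by
      by_cases h : (x, w) ∈ A
      · rw [indicator_of_mem h]; simp
      · rw [indicator_of_notMem h]; simp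
    rw [abs_mul, abs_norm, one_mul]
    nlinarith [norm_nonneg w]

theorem ae_cN_DA {A : Set (ℂ × ℂ)} (hA : MeasurableSet A) (hc : Cone A)
    (hch : ∀ᵐ w, ChordAt v A w) :
    ∀ᵐ x : ℂ, x ∈ PP v → ∀ k, cN (Dx (FA v A) x) k = cN (DA A x) k := by
  have h1 := Measure.ae_ae_of_ae_prod (ae_prod_FA (v := v) hA hch)
  filter_upwards [h1] with x hx hxP k
  apply cN_congr (Dx_hom1 (LF_FA hA) (FA_hom hc) x) (DA_hom1 hA hc x)
  filter_upwards [hx] with w hw
  unfold Dx DA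
  rw [hw hxP]

theorem rho_ut (θ : ℝ) : rho (θ : TT) = ut θ := by
  rw [rho_coe, Complex.exp_mul_I, ut, ofReal_cos, ofReal_sin]

theorem norm_ut (θ : ℝ) : ‖ut θ‖ = 1 := by
  rw [← rho_ut]; exact norm_rho _

theorem DA_ut (A : Set (ℂ × ℂ)) (x : ℂ) (θ : ℝ) : DA A x (ut θ) = dI A x θ := by
  unfold DA dI
  rw [norm_ut, one_mul]

/-- Cosine and sine integrals of a set of directions. -/
noncomputable def cI (A : Set (ℂ × ℂ)) (k : ℝ) (x : ℂ) : ℝ :=
  ∫ θ in Ioo (-π) π, dI A x θ * Real.cos (k * θ)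

noncomputable def sI (A : Set (ℂ × ℂ)) (k : ℝ) (x : ℂ) : ℝ :=
  ∫ θ in Ioo (-π) π, dI A x θ * Real.sin (k * θ)

theorem cosOn {f : ℝ → ℝ} (hf : Measurable f) (hfb : ∀ θ, |f θ| ≤ 1) (k : ℝ) :
    IntegrableOn (fun θ => f θ * Real.cos (k * θ)) (Ioo (-π) π) := by
  refine intOn_I (hf.mul (Real.measurable_cos.comp (measurable_id.const_mul k))) (C := 1)
    (fun θ => ?_)
  rw [abs_mul]
  have h1 := hfb θ
  have h2 := Real.abs_cos_le_one (k * θ)
  calc |f θ| * |Real.cos (k * θ)| ≤ 1 * 1 := by gcongr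
    _ = 1 := one_mul _

theorem sinOn {f : ℝ → ℝ} (hf : Measurable f) (hfb : ∀ θ, |f θ| ≤ 1) (k : ℝ) :
    IntegrableOn (fun θ => f θ * Real.sin (k * θ)) (Ioo (-π) π) := by
  refine intOn_I (hf.mul (Real.measurable_sin.comp (measurable_id.const_mul k))) (C := 1)
    (fun θ => ?_)
  rw [abs_mul]
  have h1 := hfb θ
  have h2 := Real.abs_sin_le_one (k * θ)
  calc |f θ| * |Real.sin (k * θ)| ≤ 1 * 1 := by gcongr
    _ = 1 := one_mul _

theorem cN_DA {A : Set (ℂ × ℂ)} (hA : MeasurableSet A) (k : ℤ) (x : ℂ) :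
    cN (DA A x) k = ((1 / (2 * π) : ℝ) : ℂ) * ((cI A k x : ℂ) - (sI A k x : ℂ) * I) := by
  unfold cN
  rw [fourierCoeff_eq_intervalIntegral _ _ (-π)]
  have e1 : -π + 2 * π = π := by ring
  rw [e1, intervalIntegral.integral_of_le (by linarith [Real.pi_pos]),
    integral_Ioc_eq_integral_Ioo, real_smul]
  congr 1
  have h1 : ∀ θ : ℝ, (fourier (-k) ((θ : ℝ) : TT) : ℂ) • ((DA A x (rho (θ : TT)) : ℝ) : ℂ) =
      ((dI A x θ * Real.cos (k * θ) : ℝ) : ℂ) - ((dI A x θ * Real.sin (k * θ) : ℝ) : ℂ) * I := by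
    intro θ
    rw [rho_ut, DA_ut, fourier_real, smul_eq_mul]
    have e2 : ((-k : ℤ) : ℂ) * I * (θ : ℂ) = ((-((k : ℝ) * θ) : ℝ) : ℂ) * I := by
      push_cast; ring
    rw [e2, Complex.exp_mul_I, ← Complex.ofReal_cos, ← Complex.ofReal_sin, Real.cos_neg,
      Real.sin_neg]
    push_cast
    ring
  simp_rw [h1]
  have i1 := cosOn (dI_meas hA x) (dI_abs A x) k
  have i2 := sinOn (dI_meas hA x) (dI_abs A x) k
  have j1 : Integrable (fun θ => ((dI A x θ * Real.cos (k * θ) : ℝ) : ℂ))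
      (volume.restrict (Ioo (-π) π)) := i1.ofReal
  have j2 : Integrable (fun θ => ((dI A x θ * Real.sin (k * θ) : ℝ) : ℂ) * I)
      (volume.restrict (Ioo (-π) π)) := i2.ofReal.mul_const I
  rw [integral_sub j1 j2, integral_mul_const]
  unfold cI sI
  rw [← integral_complex_ofReal, ← integral_complex_ofReal]

/-- The double integral of the cosine of the difference. -/
theorem dbl_cos {f g : ℝ → ℝ} (hf : Measurable f) (hg : Measurable g) (hfb : ∀ θ, |f θ| ≤ 1)
    (hgb : ∀ θ, |g θ| ≤ 1) (k : ℝ) :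
    ∫ θ in Ioo (-π) π, ∫ θ' in Ioo (-π) π, f θ * g θ' * Real.cos (k * (θ - θ')) =
      (∫ θ in Ioo (-π) π, f θ * Real.cos (k * θ)) * (∫ θ in Ioo (-π) π, g θ * Real.cos (k * θ)) +
      (∫ θ in Ioo (-π) π, f θ * Real.sin (k * θ)) * (∫ θ in Ioo (-π) π, g θ * Real.sin (k * θ)) := by
  have inner : ∀ θ, ∫ θ' in Ioo (-π) π, f θ * g θ' * Real.cos (k * (θ - θ')) =
      (f θ * Real.cos (k * θ)) * (∫ θ in Ioo (-π) π, g θ * Real.cos (k * θ)) +
      (f θ * Real.sin (k * θ)) * (∫ θ in Ioo (-π) π, g θ * Real.sin (k * θ)) := by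
    intro θ
    have e1 : ∀ θ', f θ * g θ' * Real.cos (k * (θ - θ')) =
        (f θ * Real.cos (k * θ)) * (g θ' * Real.cos (k * θ')) +
        (f θ * Real.sin (k * θ)) * (g θ' * Real.sin (k * θ')) := by
      intro θ'
      rw [mul_sub, Real.cos_sub]; ring
    simp_rw [e1]
    rw [integral_add ((cosOn hg hgb k).const_mul _) ((sinOn hg hgb k).const_mul _),
      integral_const_mul, integral_const_mul]
  simp_rw [inner]
  rw [integral_add ((cosOn hf hfb k).mul_const _) ((sinOn hf hfb k).mul_const _),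
    integral_mul_const, integral_mul_const]

/-- The mean of `g` of the difference of two directions. -/
noncomputable def am (v : Fin n → ℂ) (g : ℝ → ℝ) (A B : Set (ℂ × ℂ)) : ℝ :=
  (∫ x in PP v, ∫ θ in Ioo (-π) π, ∫ θ' in Ioo (-π) π, dI A x θ * dI B x θ' * g (θ - θ')) /
    (ar v * (2 * π) ^ 2)

/-- The integrand of the mean of the cosine. -/
theorem ae_inner {A B : Set (ℂ × ℂ)} (hA : MeasurableSet A) (hB : MeasurableSet B)
    (hcA : Cone A) (hcB : Cone B) (chA : ∀ᵐ w, ChordAt v A w) (chB : ∀ᵐ w, ChordAt v B w)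
    (k : ℤ) : ∀ᵐ x : ℂ, x ∈ PP v →
      ∫ θ in Ioo (-π) π, ∫ θ' in Ioo (-π) π, dI A x θ * dI B x θ' * Real.cos (k * (θ - θ')) =
        (2 * π) ^ 2 * (cN (Dx (FA v A) x) k * conj (cN (Dx (FA v B) x) k)).re := by
  filter_upwards [ae_cN_DA (v := v) hA hcA chA, ae_cN_DA (v := v) hB hcB chB] with x h1 h2 hx
  rw [dbl_cos (dI_meas hA x) (dI_meas hB x) (dI_abs A x) (dI_abs B x), h1 hx, h2 hx,
    cN_DA hA, cN_DA hB]
  have hpi := Real.pi_ne_zero
  simp only [cI, sI, mul_re, mul_im, sub_re, sub_im, conj_re, conj_im, ofReal_re, ofReal_im,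
    I_re, I_im]
  field_simp
  ring

theorem int_E2 {F G : ℂ → ℝ → ℝ} (hF : LF F) (hG : LF G) (k : ℤ) :
    IntegrableOn (fun x => (cN (Dx F x) k * conj (cN (Dx G x) k)).re) (PP v) := by
  refine Integrable.mono' (integrable_const (1 : ℝ))
    ((Complex.measurable_re.comp ((meas_cNDx hF k).mul
      (Complex.continuous_conj.measurable.comp (meas_cNDx hG k)))).aestronglyMeasurable) ?_
  refine Eventually.of_forall (fun x => ?_)
  rw [Real.norm_eq_abs]
  refine (Complex.abs_re_le_norm _).trans ?_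
  rw [norm_mul, RCLike.norm_conj]
  exact mul_le_one₀ (norm_cNDx' hF x k) (norm_nonneg _) (norm_cNDx' hG x k)

theorem am_cos {A B : Set (ℂ × ℂ)} (hA : IS v A) (hB : IS v B) (k : ℤ) :
    am v (fun s => Real.cos (k * s)) A B = E2 v (FA v A) (FA v B) k / ar v := by
  unfold am E2
  have h1 : ∫ x in PP v, ∫ θ in Ioo (-π) π, ∫ θ' in Ioo (-π) π,
      dI A x θ * dI B x θ' * Real.cos (k * (θ - θ')) =
      ∫ x in PP v, (2 * π) ^ 2 * (cN (Dx (FA v A) x) k * conj (cN (Dx (FA v B) x) k)).re := by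
    apply setIntegral_congr_ae isOpen_PP.measurableSet
    exact ae_inner hA.meas hB.meas hA.cone hB.cone hA.ch hB.ch k
  rw [h1, integral_const_mul, mul_comm ((2 * π) ^ 2), mul_div_mul_right]
  have := Real.pi_pos
  positivity

end Pool.Agent.Lib.BilT
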