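import Pool.Agent.Lib.MP_7bc51d_an_tri.Link
import Pool.Agent.Lib.MP_7bc51d_an_spec.TriF

set_option autoImplicit false

/-!
Triangles: the normalised spectral numbers of an invariant set.
-/

namespace Pool.Agent.Lib.BilT

open Complex MeasureTheory Set Filter AddCircle
open scoped ComplexConjugate Topology ENNReal NNReal Real
open Pool.Agent.Lib.Bil Pool.Agent.Lib.BilM Pool.Agent.Lib.BilS Pool.Agent.Lib.BilX
open Pool.Agent.Lib.BilE

theorem IS_of_IV {n : ℕ} {v : Fin n → ℂ} {A : Set (ℂ × ℂ)} (h : IV v A) : IS v A :=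
  ⟨h.meas, h.cone, h.inv, h.ch⟩

/-- The sine of the angle between two consecutive sides. -/
theorem cr_sin (hn : 3 ≤ 3) {v : Fin 3 → ℂ} (hv : ConvexIndependent ℝ v)
    (hc : ∀ a, nxt hn hv a = a + 1) (a : Fin 3) :
    cr (v (a + 1) - v a) (v (a + 2) - v (a + 1)) =
      ‖v (a + 1) - v a‖ * ‖v (a + 2) - v (a + 1)‖ * Real.sin (tang v (a + 1)) := by
  have h := ud_angle hn hv a 1
  rw [pow_one] at h
  have e1 : nxt hn hv a = a + 1 := hc a
  have e0 : a + 1 + 1 = a + 2 := by fin_cases a <;> rfl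
  have e2 : nxt hn hv (a + 1) = a + 2 := by rw [hc (a + 1), e0]
  rw [e1, e2] at h
  have e3 : EuclideanGeometry.angle (v a) (v (a + 1)) (v (a + 2)) = tang v (a + 1) := by
    unfold tang
    have g1 : a + 1 + 2 = a := by
      fin_cases a <;> rfl
    rw [g1, e0]
  rw [e3, ud_eq, ud_eq, e1, e2] at h
  have n1 : (‖v (a + 1) - v a‖ : ℝ) ≠ 0 := by
    rw [← e1]; exact norm_ne_zero_iff.2 (v_sub_ne hv (nxt_side hn hv a).ne)
  have n2 : (‖v (a + 2) - v (a + 1)‖ : ℝ) ≠ 0 := by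
    rw [← e2]; exact norm_ne_zero_iff.2 (v_sub_ne hv (nxt_side hn hv (a + 1)).ne)
  have h2 : (v (a + 2) - v (a + 1)) / (‖v (a + 2) - v (a + 1)‖ : ℂ) *
      conj ((v (a + 1) - v a) / (‖v (a + 1) - v a‖ : ℂ)) =
      ((‖v (a + 2) - v (a + 1)‖⁻¹ * ‖v (a + 1) - v a‖⁻¹ : ℝ) : ℂ) *
        (conj (v (a + 1) - v a) * (v (a + 2) - v (a + 1))) := by
    rw [map_div₀, conj_ofReal]
    push_cast
    have m1 : (‖v (a + 1) - v a‖ : ℂ) ≠ 0 := by exact_mod_cast n1
    have m2 : (‖v (a + 2) - v (a + 1)‖ : ℂ) ≠ 0 := by exact_mod_cast n2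
    field_simp
  rw [h2, im_ofReal_mul, ← cr_eq_im] at h
  norm_num at h
  rw [← h]
  field_simp

/-- Law of sines and the area formula. -/
theorem tri_sines (hn : 3 ≤ 3) {v : Fin 3 → ℂ} (hv : ConvexIndependent ℝ v)
    (hc : ∀ a, nxt hn hv a = a + 1) :
    ∃ R : ℝ, 0 < R ∧ (∀ a, ‖v (a + 1) - v a‖ = 2 * R * Real.sin (tang v (a + 2))) ∧
      (∀ a, 0 < Real.sin (tang v a)) ∧ ar v = 2 * R ^ 2 * ∏ a, Real.sin (tang v a) := by
  have k0 := cr_sin hn hv hc 0
  have k1 := cr_sin hn hv hc 1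
  have k2 := cr_sin hn hv hc 2
  have f0 : (0 : Fin 3) + 1 = 1 := rfl
  have f1 : (0 : Fin 3) + 2 = 2 := rfl
  have f2 : (1 : Fin 3) + 1 = 2 := rfl
  have f3 : (1 : Fin 3) + 2 = 0 := rfl
  have f4 : (2 : Fin 3) + 1 = 0 := rfl
  have f5 : (2 : Fin 3) + 2 = 1 := rfl
  rw [f0, f1] at k0
  rw [f2, f3] at k1
  rw [f4, f5] at k2
  have t0 := turn hn hv 0
  unfold eg at t0
  rw [hc, f0, hc, f2] at t0
  set D := cr (v 1 - v 0) (v 2 - v 1) with hD
  have d1 : cr (v 2 - v 1) (v 0 - v 2) = D := by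
    rw [hD]; unfold cr; simp only [sub_re, sub_im]; ring
  have d2 : cr (v 0 - v 2) (v 1 - v 0) = D := by
    rw [hD]; unfold cr; simp only [sub_re, sub_im]; ring
  rw [d1] at k1
  rw [d2] at k2
  have hpos : ∀ a b : Fin 3, a ≠ b → 0 < ‖v a - v b‖ := fun a b hab =>
    norm_pos_iff.2 (v_sub_ne hv hab.symm)
  have p0 := hpos 1 0 (by decide)
  have p1 := hpos 2 1 (by decide)
  have p2 := hpos 0 2 (by decide)
  set l0 := ‖v 1 - v 0‖ with hl0
  set l1 := ‖v 2 - v 1‖ with hl1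
  set l2 := ‖v 0 - v 2‖ with hl2
  have s1 : Real.sin (tang v 1) = D / (l0 * l1) := by rw [k0]; field_simp
  have s2 : Real.sin (tang v 2) = D / (l1 * l2) := by rw [k1]; field_simp
  have s0 : Real.sin (tang v 0) = D / (l2 * l0) := by rw [k2]; field_simp
  refine ⟨l0 * l1 * l2 / (2 * D), by positivity, ?_, ?_, ?_⟩
  · intro a
    fin_cases a
    · change l0 = 2 * (l0 * l1 * l2 / (2 * D)) * Real.sin (tang v 2)
      rw [s2]; field_simp
    · change l1 = 2 * (l0 * l1 * l2 / (2 * D)) * Real.sin (tang v 0)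
      rw [s0]; field_simp
    · change l2 = 2 * (l0 * l1 * l2 / (2 * D)) * Real.sin (tang v 1)
      rw [s1]; field_simp
  · intro a
    fin_cases a
    · change 0 < Real.sin (tang v 0)
      rw [s0]; positivity
    · change 0 < Real.sin (tang v 1)
      rw [s1]; positivity
    · change 0 < Real.sin (tang v 2)
      rw [s2]; positivity
  · have hB := BB_vv hn hv
    have hB2 : BilX.BB hn hv v v = D := by
      unfold BilX.BB
      rw [Fin.sum_univ_three, hc, hc, hc, f0, f2, f4, hD]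
      unfold cr
      simp only [sub_re, sub_im]
      ring
    have h3 : ar v = D / 2 := by
      unfold ar
      linarith
    rw [h3, Fin.prod_univ_three, s0, s1, s2]
    field_simp

theorem litR_nonneg {n : ℕ} (v : Fin n → ℂ) (A : Set (ℂ × ℂ)) (i j : Fin n) (w : ℂ) :
    0 ≤ litR v A i j w := ENNReal.toReal_nonneg

theorem amp_one_nonneg {n : ℕ} (v : Fin n → ℂ) (A : Set (ℂ × ℂ)) (i j : Fin n) :
    0 ≤ amp v A i j 1 := by
  unfold amp
  apply mul_nonneg (by have := Real.pi_pos; positivity)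
  apply setIntegral_nonneg measurableSet_Ioo
  intro θ hθ
  have h1 := Real.sin_pos_of_pos_of_lt_pi hθ.1 hθ.2
  have h2 := litR_nonneg v A i j (ut θ * (v j - v i))
  rw [Int.cast_one, one_mul]
  positivity

/-- The normalised spectral numbers of invariant sets in a triangle. -/
theorem tri_final (hn : 3 ≤ 3) {v : Fin 3 → ℂ} (hv : ConvexIndependent ℝ v)
    (hc : ∀ a, nxt hn hv a = a + 1) (k : ℕ) (hk : 1 ≤ k) :
    ∃ lam : Set (ℂ × ℂ) → ℝ, ∀ A B : Set (ℂ × ℂ), IV v A → IV v B →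
      ((∃ a, Real.sin (k * tang v a) ≠ 0) → ∀ a,
        2 * amp v A a (a + 1) k * Real.sin (tang v (a + 2)) =
          lam A * ‖v (a + 1) - v a‖ * Real.sin (k * tang v (a + 2))) ∧
      am v (fun s => 2 * Real.sin s * Real.sin (k * s)) A B =
        (-1) ^ (k + 1) * lam A * lam B * ∏ a, (Real.sin (k * tang v a) / Real.sin (tang v a)) ∧
      (k = 1 → lam A = mm v A) := by
  obtain ⟨R, hR, hlen, hsin, har⟩ := tri_sines hn hv hc
  obtain ⟨lam, hlam⟩ := tri_amp hn hv hc k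
  refine ⟨fun A => lam A / R, fun A B hA hB => ?_⟩
  have first : ∀ A B : Set (ℂ × ℂ), IV v A → IV v B →
      (∃ a, Real.sin (k * tang v a) ≠ 0) → ∀ a,
        2 * amp v A a (a + 1) k * Real.sin (tang v (a + 2)) =
          lam A / R * ‖v (a + 1) - v a‖ * Real.sin (k * tang v (a + 2)) := by
    intro A B hA hB h a
    rw [(hlam A B hA hB).1 h a, hlen a]
    field_simp
  have second : ∀ A B : Set (ℂ × ℂ), IV v A → IV v B →
      am v (fun s => 2 * Real.sin s * Real.sin (k * s)) A B =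
        (-1) ^ (k + 1) * (lam A / R) * (lam B / R) *
          ∏ a, (Real.sin (k * tang v a) / Real.sin (tang v a)) := by
    intro A B hA hB
    rw [am_sin (IS_of_IV hA) (IS_of_IV hB) k]
    have hσ : ∀ a, nxt hn hv ((Equiv.refl (Fin 3)) a) = (Equiv.refl (Fin 3)) (finRotate 3 a) := by
      intro a
      rw [Equiv.refl_apply, Equiv.refl_apply, hc, finRotate_apply]
    have h1 := E2_bil hn hv hA.lf hB.lf hA.hom hB.hom (hA.sym hn hv) (hB.sym hn hv) hσ (k : ℤ)
    simp only [Equiv.refl_apply] at h1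
    have h2 : ∀ {C : Set (ℂ × ℂ)}, IV v C → (fun a => sF hn hv (FA v C) a (k : ℤ)) =
        fun a => amp v C a (nxt hn hv a) k := by
      intro C hC
      funext a
      exact sF_amp hn hv hC.meas hC.cone hC.inv hC.ch a k
    rw [h2 hA, h2 hB] at h1
    have h3 : (fun a b => ((ud hn hv b * conj (ud hn hv a)) ^ (k : ℤ)).im) =
        fun a b => ((ud hn hv b * conj (ud hn hv a)) ^ k).im := by
      funext a b
      rw [zpow_natCast]
    rw [h3, (hlam A B hA hB).2] at h1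
    rw [h1, har, Finset.prod_div_distrib]
    have h4 : ∏ a, Real.sin (tang v a) ≠ 0 :=
      (Finset.prod_pos (fun a _ => hsin a)).ne'
    field_simp
  refine ⟨first A B hA hB, second A B hA hB, ?_⟩
  intro hk1
  subst hk1
  have h5 := second A A hA hA
  have h6 : (fun s : ℝ => 2 * Real.sin s * Real.sin (((1 : ℕ) : ℝ) * s)) =
      fun s => 2 * Real.sin s ^ 2 := by
    funext s
    rw [Nat.cast_one, one_mul]; ring
  rw [h6, am_JJ hn hv, JJ_tri hn hv (IS_of_IV hA) (IS_of_IV hA)] at h5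
  have h7 : ∏ a, (Real.sin (((1 : ℕ) : ℝ) * tang v a) / Real.sin (tang v a)) = 1 := by
    apply Finset.prod_eq_one
    intro a _
    rw [Nat.cast_one, one_mul, div_self (hsin a).ne']
  rw [h7] at h5
  have h8 := first A A hA hA ⟨0, by rw [Nat.cast_one, one_mul]; exact (hsin 0).ne'⟩ 0
  have h9 := amp_one_nonneg v A 0 (0 + 1)
  simp only [Nat.cast_one, one_mul] at h8
  have h10 : 0 < Real.sin (tang v (0 + 2)) := hsin _
  have h11 : 0 < ‖v (0 + 1) - v 0‖ := by
    rw [hlen 0]; positivity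
  have h12 : 0 ≤ lam A / R := by
    by_contra hcon
    push Not at hcon
    have g1 : lam A / R * ‖v (0 + 1) - v 0‖ * Real.sin (tang v (0 + 2)) < 0 :=
      mul_neg_of_neg_of_pos (mul_neg_of_neg_of_pos hcon h11) h10
    rw [← h8] at g1
    have g2 : 0 ≤ 2 * amp v A 0 (0 + 1) 1 * Real.sin (tang v (0 + 2)) := by positivity
    linarith
  have h13 := mm_nonneg v A
  have h14 : (lam A / R) ^ 2 = (mm v A) ^ 2 := by
    have : (-1 : ℝ) ^ (1 + 1) = 1 := by norm_num
    rw [this] at h5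
    nlinarith
  exact (pow_left_inj₀ h12 h13 two_ne_zero).1 h14

end Pool.Agent.Lib.BilT
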