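import Pool.Agent.Lib.MP_7bc51d_an_tri.Uniq

set_option autoImplicit false

/-!
Triangles: an invariant set is determined by its nondegenerate amplitudes on one side.
-/

namespace Pool.Agent.Lib.BilT

open Complex MeasureTheory Set Filter AddCircle
open scoped ComplexConjugate Topology ENNReal NNReal Real
open Pool.Agent.Lib.Bil Pool.Agent.Lib.BilM Pool.Agent.Lib.BilS Pool.Agent.Lib.BilX
open Pool.Agent.Lib.BilE

section gen

variable {n : ℕ} {v : Fin n → ℂ}

theorem EE_cmb_neg {F G : ℂ → ℝ → ℝ} (hF : LF F) (hG : LF G) (hFh : HomF F) (hGh : HomF G)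
    (k : ℤ) :
    EE v (cmb F G (-1)) k = (E2 v F F k - 2 * E2 v F G k + E2 v G G k) / 4 := by
  have hK' : cmb F G (-1) = fun w Q => (1 / 2) * F w Q + (-1 / 2) * G w Q := by
    funext w Q; unfold cmb; ring
  unfold EE E2
  have i1 : Integrable (fun x => (cN (Dx F x) k * conj (cN (Dx F x) k)).re -
      2 * (cN (Dx F x) k * conj (cN (Dx G x) k)).re) (volume.restrict (PP v)) :=
    (int_E2 hF hF k).sub ((int_E2 hF hG k).const_mul 2)
  rw [← integral_const_mul, ← integral_sub (int_E2 hF hF k) ((int_E2 hF hG k).const_mul 2),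
    ← integral_add i1 (int_E2 hG hG k), ← integral_div]
  apply integral_congr_ae
  refine Eventually.of_forall (fun x => ?_)
  simp only
  rw [hK', cN_Dx_comb hF hG hFh hGh]
  set a := cN (Dx F x) k
  set b := cN (Dx G x) k
  rw [← Complex.normSq_eq_norm_sq, Complex.normSq_apply]
  simp only [add_re, add_im, mul_re, mul_im, ofReal_re, ofReal_im, conj_re, conj_im]
  ring

end gen

/-- In a triangle an invariant set is determined by the sine coefficients of its lit fraction on
one side, at the frequencies `k` for which no sine of a `k`-fold angle vanishes. -/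
theorem tri_uniq_side (hn : 3 ≤ 3) {v : Fin 3 → ℂ} (hv : ConvexIndependent ℝ v)
    (hc : ∀ a, nxt hn hv a = a + 1) {A B : Set (ℂ × ℂ)} (hA : IV v A) (hB : IV v B) (a : Fin 3)
    (h : ∀ k : ℕ, 1 ≤ k → (∀ b, Real.sin (k * tang v b) ≠ 0) →
      amp v A a (a + 1) k = amp v B a (a + 1) k) :
    volume ({p : ℂ × ℂ | ¬ (p ∈ A ↔ p ∈ B)} ∩ (PP v ×ˢ BV)) = 0 := by
  apply eq_of_EE hn hv hA hB
  intro k hk
  obtain ⟨lam, hlam⟩ := tri_final hn hv hc k hk
  have har := (ar_pos hn hv).ne'
  have j1 := (hlam A A hA hA).2.1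
  have j2 := (hlam A B hA hB).2.1
  have j3 := (hlam B B hB hB).2.1
  rw [am_sin (IS_of_IV hA) (IS_of_IV hA) k] at j1
  rw [am_sin (IS_of_IV hA) (IS_of_IV hB) k] at j2
  rw [am_sin (IS_of_IV hB) (IS_of_IV hB) k] at j3
  set P := ∏ a, (Real.sin (k * tang v a) / Real.sin (tang v a)) with hP
  have key : (lam A - lam B) ^ 2 * P = 0 := by
    by_cases hz : ∀ b, Real.sin (k * tang v b) ≠ 0
    · have g1 := (hlam A B hA hB).1 ⟨0, hz 0⟩ a
      have g2 := (hlam B A hB hA).1 ⟨0, hz 0⟩ a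
      rw [h k hk hz] at g1
      rw [g1] at g2
      have hl : 0 < ‖v (a + 1) - v a‖ := by
        rw [← hc a]
        exact norm_pos_iff.2 (v_sub_ne hv (nxt_side hn hv a).ne)
      have g3 : (lam A - lam B) * (‖v (a + 1) - v a‖ * Real.sin (k * tang v (a + 2))) = 0 := by
        linear_combination g2
      have g4 : lam A - lam B = 0 :=
        (mul_eq_zero.1 g3).resolve_right (mul_ne_zero hl.ne' (hz _))
      rw [g4]
      ring
    · push Not at hz
      obtain ⟨b, hb⟩ := hz
      have : P = 0 := Finset.prod_eq_zero (Finset.mem_univ b) (by rw [hb, zero_div])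
      rw [this, mul_zero]
  rw [EE_cmb_neg hA.lf hB.lf hA.hom hB.hom, EE_cmb_neg hA.lf hB.lf hA.hom hB.hom]
  rw [div_eq_iff har] at j1 j2 j3
  have h5 : (E2 v (FA v A) (FA v A) ((k : ℤ) - 1) - 2 * E2 v (FA v A) (FA v B) ((k : ℤ) - 1) +
      E2 v (FA v B) (FA v B) ((k : ℤ) - 1)) -
      (E2 v (FA v A) (FA v A) ((k : ℤ) + 1) - 2 * E2 v (FA v A) (FA v B) ((k : ℤ) + 1) +
      E2 v (FA v B) (FA v B) ((k : ℤ) + 1)) = 0 := by
    linear_combination j1 - 2 * j2 + j3 + (-1) ^ (k + 1) * ar v * key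
  linarith

end Pool.Agent.Lib.BilT
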