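import Pool.Agent.Lib.MP_7bc51d_an_tri.TriFinal

set_option autoImplicit false

/-!
Triangles: an invariant set is determined by its nondegenerate spectral numbers.
-/

namespace Pool.Agent.Lib.BilT

open Complex MeasureTheory Set Filter AddCircle
open scoped ComplexConjugate Topology ENNReal NNReal Real
open Pool.Agent.Lib.Bil Pool.Agent.Lib.BilM Pool.Agent.Lib.BilS Pool.Agent.Lib.BilX
open Pool.Agent.Lib.BilE

section gen

variable {n : ℕ} {v : Fin n → ℂ}

theorem E2_self (F : ℂ → ℝ → ℝ) (k : ℤ) : E2 v F F k = EE v F k := by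
  unfold E2 EE
  congr 1
  funext x
  rw [Complex.mul_conj, ofReal_re, Complex.normSq_eq_norm_sq]

/-- Equal energies of neighbouring modes force the area to vanish. -/
theorem area_of_EE (hn : 3 ≤ n) (hv : ConvexIndependent ℝ v) {F : ℂ → ℝ → ℝ} (hF : LF F)
    (hhom : HomF F) (hs : ∀ i, SymAt F (v i) (v (nxt hn hv i) - v i)) {k : ℤ}
    (h : EE v F (k - 1) = EE v F (k + 1)) : Ar hn hv (fun i => cN (gam v F i) k) = 0 := by
  have h1 := coeff_area hn hv hF hhom hs k
  rw [BilE.coeff_sin (Cr_cont hF), coeff_Cr hF hhom, coeff_Cr hF hhom, h, sub_self, mul_zero] at h1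
  have h2 : kap / 2 ≠ 0 := div_ne_zero kap_ne two_ne_zero
  exact (mul_eq_zero.1 h1.symm).resolve_left h2

/-- Sets whose difference has equal neighbouring energies agree. -/
theorem eq_of_EE (hn : 3 ≤ n) (hv : ConvexIndependent ℝ v) {A B : Set (ℂ × ℂ)} (hA : IV v A)
    (hB : IV v B)
    (h : ∀ k : ℕ, 1 ≤ k → EE v (cmb (FA v A) (FA v B) (-1)) ((k : ℤ) - 1) =
      EE v (cmb (FA v A) (FA v B) (-1)) ((k : ℤ) + 1)) :
    volume ({p : ℂ × ℂ | ¬ (p ∈ A ↔ p ∈ B)} ∩ (PP v ×ˢ BV)) = 0 := by
  have hF := cmb_LF hA.lf hB.lf (c := -1) (by norm_num)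
  have hH := cmb_HomF hA.hom hB.hom (-1)
  have hS : ∀ i, SymAt (cmb (FA v A) (FA v B) (-1)) (v i) (v (nxt hn hv i) - v i) := fun i =>
    cmb_SymAt (hA.sym hn hv i) (hB.sym hn hv i) (-1)
  have hall : ∀ k : ℤ, EE v (cmb (FA v A) (FA v B) (-1)) (k - 1) =
      EE v (cmb (FA v A) (FA v B) (-1)) (k + 1) := by
    intro k
    obtain ⟨m, rfl | rfl⟩ := Int.eq_nat_or_neg k
    · rcases Nat.eq_zero_or_pos m with h0 | h0
      · subst h0
        rw [Nat.cast_zero, zero_sub, zero_add, EE_neg]
      · exact h m h0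
    · rcases Nat.eq_zero_or_pos m with h0 | h0
      · subst h0
        rw [Nat.cast_zero, neg_zero, zero_sub, zero_add, EE_neg]
      · have e1 : -(m : ℤ) - 1 = -((m : ℤ) + 1) := by ring
        have e2 : -(m : ℤ) + 1 = -((m : ℤ) - 1) := by ring
        rw [e1, e2, EE_neg, EE_neg]
        exact (h m h0).symm
  have h3 := zero_of_area hn hv hF hH hS (fun k => area_of_EE hn hv hF hH hS (hall k))
  have h4 : ∀ᵐ p : ℂ × ℂ, p ∈ PP v ×ˢ BV → FA v A p.2 (cr p.2 p.1) = FA v B p.2 (cr p.2 p.1) := by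
    have h0 : MeasurePreserving (Prod.swap : ℂ × ℂ → ℂ × ℂ)
      ((volume : Measure ℂ).prod volume) ((volume : Measure ℂ).prod volume) :=
      Measure.measurePreserving_swap
    have h5 := h0.quasiMeasurePreserving.ae h3
    filter_upwards [h5] with p k1 hp
    have k2 := k1 ⟨hp.2, hp.1⟩
    unfold cmb at k2
    simp only [Prod.fst_swap, Prod.snd_swap] at k2
    linarith
  have h6 := ae_prod_FA (v := v) hA.meas hA.ch
  have h7 := ae_prod_FA (v := v) hB.meas hB.ch
  rw [← compl_mem_ae_iff]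
  filter_upwards [h4, h6, h7] with p k1 k2 k3 hp
  obtain ⟨hp1, hp2⟩ := hp
  apply hp1
  have e := k1 hp2
  rw [k2 hp2.1, k3 hp2.1] at e
  constructor
  · intro h
    by_contra h'
    rw [indicator_of_mem h, indicator_of_notMem h'] at e
    norm_num at e
  · intro h
    by_contra h'
    rw [indicator_of_mem h, indicator_of_notMem h'] at e
    norm_num at e

end gen

/-- In a triangle the amplitudes at the nondegenerate frequencies determine the set. -/
theorem tri_uniq (hn : 3 ≤ 3) {v : Fin 3 → ℂ} (hv : ConvexIndependent ℝ v)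
    (hc : ∀ a, nxt hn hv a = a + 1) {A B : Set (ℂ × ℂ)} (hA : IV v A) (hB : IV v B)
    (h : ∀ k : ℕ, 1 ≤ k → (∃ a, Real.sin (k * tang v a) ≠ 0) →
      ∀ a, amp v A a (a + 1) k = amp v B a (a + 1) k) :
    volume ({p : ℂ × ℂ | ¬ (p ∈ A ↔ p ∈ B)} ∩ (PP v ×ˢ BV)) = 0 := by
  apply eq_of_EE hn hv hA hB
  intro k hk
  set F := cmb (FA v A) (FA v B) (-1) with hFdef
  have hF := cmb_LF hA.lf hB.lf (c := -1) (by norm_num)
  have hH := cmb_HomF hA.hom hB.hom (-1)
  have hS : ∀ i, SymAt F (v i) (v (nxt hn hv i) - v i) := fun i =>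
    cmb_SymAt (hA.sym hn hv i) (hB.sym hn hv i) (-1)
  have hσ : ∀ a, nxt hn hv ((Equiv.refl (Fin 3)) a) = (Equiv.refl (Fin 3)) (finRotate 3 a) := by
    intro a
    rw [Equiv.refl_apply, Equiv.refl_apply, hc, finRotate_apply]
  have h1 := E2_bil hn hv hF hF hH hH hS hS hσ (k : ℤ)
  simp only [Equiv.refl_apply] at h1
  rw [E2_self, E2_self] at h1
  have h0 : BQ 3 (fun a => sF hn hv F a (k : ℤ)) (fun a => sF hn hv F a (k : ℤ))
      (fun a b => ((ud hn hv b * conj (ud hn hv a)) ^ (k : ℤ)).im) = 0 := by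
    by_cases hk' : ∃ a, Real.sin (k * tang v a) ≠ 0
    · have h2 : ∀ a, sF hn hv F a (k : ℤ) = 0 := by
        intro a
        rw [hFdef, sF_cmb hn hv hA.lf hB.lf hA.hom hB.hom,
          sF_amp hn hv hA.meas hA.cone hA.inv hA.ch, sF_amp hn hv hB.meas hB.cone hB.inv hB.ch,
          hc a, h k hk hk' a]
        ring
      unfold BQ
      apply Finset.sum_eq_zero
      intro b _
      apply Finset.sum_eq_zero
      intro a _
      simp only [h2]
      simp
    · push Not at hk'
      have y1 : ∀ a : Fin 3, ((ud hn hv (a + 1) * conj (ud hn hv a)) ^ k).im = 0 := by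
        intro a
        have h3 := ud_angle hn hv a k
        have e0 : a + 1 + 1 = a + 2 := by fin_cases a <;> rfl
        have e1 : nxt hn hv a = a + 1 := hc a
        have e2 : nxt hn hv (a + 1) = a + 2 := by rw [hc (a + 1), e0]
        have e3 : EuclideanGeometry.angle (v a) (v (a + 1)) (v (a + 2)) = tang v (a + 1) := by
          unfold tang
          have g1 : a + 1 + 2 = a := by
            fin_cases a <;> rfl
          rw [g1, e0]
        rw [e1, e2, e3, hk' (a + 1), mul_zero] at h3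
        exact h3
      have y2 : ∀ a b : Fin 3, a < b → ((ud hn hv b * conj (ud hn hv a)) ^ k).im = 0 := by
        intro a b hab
        have hcase : b = a + 1 ∨ a = b + 1 := by
          fin_cases a <;> fin_cases b <;> simp_all
        rcases hcase with h4 | h4
        · rw [h4]; exact y1 a
        · have h5 := y1 b
          rw [← h4] at h5
          have h6 : (ud hn hv b * conj (ud hn hv a)) ^ k =
              conj ((ud hn hv a * conj (ud hn hv b)) ^ k) := by
            rw [map_pow, map_mul, conj_conj, mul_comm]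
          rw [h6, conj_im, h5, neg_zero]
      unfold BQ
      apply Finset.sum_eq_zero
      intro b _
      apply Finset.sum_eq_zero
      intro a _
      by_cases hab : a < b
      · rw [if_pos hab]
        simp only [zpow_natCast]
        rw [y2 a b hab, mul_zero]
      · rw [if_neg hab]
  rw [h0] at h1
  linarith

end Pool.Agent.Lib.BilT
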